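import Pool.Agent.W312.TP.Stm

/-!
# Tree t-spanners of path graphs: one level of triangles
-/

set_option autoImplicit false

namespace Pool.Agent.W392.TP

open Pool.Agent.W312.TP

theorem newEdges_append (n : ℕ) (L : List Slot) (q : Slot) : newEdges n (L ++ [q]) =
    newEdges n L ++ [(q.2.1.1, n + L.length), (q.2.2.1, n + L.length)] := by
  unfold newEdges
  rw [List.zipIdx_append, List.flatMap_append]
  simp

theorem newEdges_lt (n : ℕ) (L : List Slot) (hL : ∀ q ∈ L, q.2.1.1 < n ∧ q.2.2.1 < n) :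
    ∀ z ∈ newEdges n L, z.1 < n + L.length ∧ z.2 < n + L.length := by
  induction L using List.reverseRecOn with
  | nil => intro z hz; simp [newEdges] at hz
  | append_singleton L q ih =>
    intro z hz
    rw [newEdges_append, List.mem_append] at hz
    rw [List.length_append, List.length_singleton]
    rcases hz with hz | hz
    · have := ih (fun q' hq' => hL q' (List.mem_append_left _ hq')) z hz
      omega
    · have hq := hL q (List.mem_append_right _ (List.mem_singleton.2 rfl))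
      simp only [List.mem_cons, List.not_mem_nil, or_false] at hz
      rcases hz with rfl | rfl
      · constructor
        · show q.2.1.1 < _; omega
        · show n + L.length < _; omega
      · constructor
        · show q.2.2.1 < _; omega
        · show n + L.length < _; omega

theorem main (hU : UP) (hD : DOWN) (c : ℕ) (hc : 2 ≤ c) (n : ℕ) (E : Set (ℕ × ℕ))
    (hE : ∀ z ∈ E, z.1 < n ∧ z.2 < n) (L : List Slot) :
    ∀ C : Set (ℕ × ℕ × ℕ), (∀ z ∈ C, z.1 < n ∧ z.2.1 < n) →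
    (∀ q ∈ L, q.2.1.1 < n ∧ q.2.2.1 < n ∧ q.2.1.1 ≠ q.2.2.1 ∧
      ((q.2.1.1, q.2.2.1) ∈ E ∨ (q.2.2.1, q.2.1.1) ∈ E)) →
    (WS (n + L.length) {z | z ∈ E ∨ z ∈ newEdges n L}
      {z | z ∈ C ∨ ∃ e ∈ newEdges n L, z = (e.1, e.2, c)} ↔
    WS n E {z | z ∈ C ∨ ∃ q ∈ L, z = (q.2.1.1, q.2.2.1, c - 1)}) := by
  induction L using List.reverseRecOn with
  | nil =>
    intro C _ _
    have e1 : {z | z ∈ E ∨ z ∈ newEdges n []} = E := by
      ext z; simp [newEdges]
    have e2 : {z | z ∈ C ∨ ∃ e ∈ newEdges n [], z = (e.1, e.2, c)} = C := by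
      ext z; simp [newEdges]
    have e3 : {z : ℕ × ℕ × ℕ | z ∈ C ∨ ∃ q ∈ ([] : List Slot), z = (q.2.1.1, q.2.2.1, c - 1)} =
        C := by
      ext z; simp
    rw [e1, e2, e3]
    rfl
  | append_singleton L q ih =>
    intro C hC hL
    have hL' : ∀ q' ∈ L, q'.2.1.1 < n ∧ q'.2.2.1 < n ∧ q'.2.1.1 ≠ q'.2.2.1 ∧
        ((q'.2.1.1, q'.2.2.1) ∈ E ∨ (q'.2.2.1, q'.2.1.1) ∈ E) :=
      fun q' hq' => hL q' (List.mem_append_left _ hq')
    obtain ⟨ha, hb, hab, habE⟩ := hL q (List.mem_append_right _ (List.mem_singleton.2 rfl))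
    have hlt := newEdges_lt n L fun q' hq' => ⟨(hL' q' hq').1, (hL' q' hq').2.1⟩
    have ih' := ih {z | z ∈ C ∨ z = (q.2.1.1, q.2.2.1, c - 1)} (by
      rintro z (hz | rfl)
      · exact hC z hz
      · exact ⟨ha, hb⟩) hL'
    have e1 : {z | z ∈ E ∨ z ∈ newEdges n (L ++ [q])} =
        {z | z ∈ {z | z ∈ E ∨ z ∈ newEdges n L} ∨ z = (q.2.1.1, n + L.length) ∨
          z = (q.2.2.1, n + L.length)} := by
      ext z
      simp only [Set.mem_ofPred_eq, newEdges_append, List.mem_append, List.mem_cons,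
        List.not_mem_nil, or_false]
      tauto
    have e2 : {z | z ∈ C ∨ ∃ e ∈ newEdges n (L ++ [q]), z = (e.1, e.2, c)} =
        {z | z ∈ {z | z ∈ C ∨ ∃ e ∈ newEdges n L, z = (e.1, e.2, c)} ∨
          z = (q.2.1.1, n + L.length, c) ∨ z = (q.2.2.1, n + L.length, c)} := by
      ext z
      simp only [Set.mem_ofPred_eq, newEdges_append, List.mem_append, List.mem_cons,
        List.not_mem_nil, or_false]
      constructor
      · rintro (h | ⟨e, h | rfl | rfl, rfl⟩)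
        · exact Or.inl (Or.inl h)
        · exact Or.inl (Or.inr ⟨e, h, rfl⟩)
        · exact Or.inr (Or.inl rfl)
        · exact Or.inr (Or.inr rfl)
      · rintro ((h | ⟨e, h, rfl⟩) | rfl | rfl)
        · exact Or.inl h
        · exact Or.inr ⟨e, Or.inl h, rfl⟩
        · exact Or.inr ⟨_, Or.inr (Or.inl rfl), rfl⟩
        · exact Or.inr ⟨_, Or.inr (Or.inr rfl), rfl⟩
    have e3 : {z | z ∈ {z | z ∈ C ∨ ∃ e ∈ newEdges n L, z = (e.1, e.2, c)} ∨
          z = (q.2.1.1, q.2.2.1, c - 1)} =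
        {z | z ∈ {z | z ∈ C ∨ z = (q.2.1.1, q.2.2.1, c - 1)} ∨
          ∃ e ∈ newEdges n L, z = (e.1, e.2, c)} := by
      ext z
      exact or_right_comm
    have e4 : {z : ℕ × ℕ × ℕ | z ∈ C ∨ ∃ q' ∈ L ++ [q], z = (q'.2.1.1, q'.2.2.1, c - 1)} =
        {z | z ∈ {z | z ∈ C ∨ z = (q.2.1.1, q.2.2.1, c - 1)} ∨
          ∃ q' ∈ L, z = (q'.2.1.1, q'.2.2.1, c - 1)} := by
      ext z
      simp only [Set.mem_ofPred_eq, List.mem_append, List.mem_singleton]
      constructor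
      · rintro (h | ⟨e, h | rfl, rfl⟩)
        · exact Or.inl (Or.inl h)
        · exact Or.inr ⟨e, h, rfl⟩
        · exact Or.inl (Or.inr rfl)
      · rintro ((h | rfl) | ⟨e, h, rfl⟩)
        · exact Or.inl h
        · exact Or.inr ⟨_, Or.inr rfl, rfl⟩
        · exact Or.inr ⟨e, Or.inl h, rfl⟩
    have hE' : ∀ z ∈ {z | z ∈ E ∨ z ∈ newEdges n L}, z.1 < n + L.length ∧ z.2 < n + L.length := by
      rintro z (hz | hz)
      · have := hE z hz
        omega
      · exact hlt z hz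
    rw [List.length_append, List.length_singleton, ← Nat.add_assoc, e1, e2, e4, ← ih', ← e3]
    constructor
    · exact hU (n + L.length) _ _ _ _ c (by omega) (by omega) hab
        (habE.imp Or.inl Or.inl) hc hE'
    · refine hD (n + L.length) _ _ _ _ c (by omega) (by omega) hab hc hE' ?_
      rintro z (hz | ⟨e, he, rfl⟩)
      · have := hC z hz
        omega
      · exact hlt e he

theorem mem_newEdges_iff (n : ℕ) (L : List Slot) (z : ℕ × ℕ) : z ∈ newEdges n L ↔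
    ∃ p ∈ L.zipIdx, z = (p.1.2.1.1, n + p.2) ∨ z = (p.1.2.2.1, n + p.2) := by
  unfold newEdges
  simp only [List.mem_flatMap, List.mem_cons, List.not_mem_nil, or_false]

theorem mem_newSlots_iff (n N : ℕ) (L : List Slot) (z : Slot) : z ∈ newSlots n N L ↔
    ∃ p ∈ L.zipIdx, z = (N + p.2, p.1.2.1, (n + p.2, false)) ∨
      z = (N + p.2, (n + p.2, true), p.1.2.2) := by
  unfold newSlots
  simp only [List.mem_flatMap, List.mem_cons, List.not_mem_nil, or_false]

theorem proof_LEVEL (hU : UP) (hD : DOWN) : LEVEL := by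
  intro t s c hs hc hct
  obtain ⟨hs1, hs2, hs3⟩ := hs
  have hE : ∀ z ∈ {z | z ∈ s.2.2.1}, z.1 < s.1 ∧ z.2 < s.1 := by
    intro z hz
    have := hs2 z hz
    omega
  have hL : ∀ q ∈ s.2.2.2, q.2.1.1 < s.1 ∧ q.2.2.1 < s.1 ∧ q.2.1.1 ≠ q.2.2.1 ∧
      ((q.2.1.1, q.2.2.1) ∈ {z | z ∈ s.2.2.1} ∨ (q.2.2.1, q.2.1.1) ∈ {z | z ∈ s.2.2.1}) := by
    intro q hq
    have h := hs3 q hq
    refine ⟨?_, ?_, ?_, h⟩ <;>
    · rcases h with h | h
      · have h' := hs2 _ h
        simp only at h'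
        omega
      · have h' := hs2 _ h
        simp only at h'
        omega
  have hm := main hU hD c hc s.1 {z | z ∈ s.2.2.1} hE s.2.2.2
    {z | (z.1, z.2.1) ∈ s.2.2.1 ∧ z.2.2 = t} (by
      rintro z ⟨hz, _⟩
      have h := hs2 _ hz
      simp only at h
      omega) hL
  have k1 : WSp t (expand s) c ↔ WS (s.1 + s.2.2.2.length)
      {z | z ∈ {z | z ∈ s.2.2.1} ∨ z ∈ newEdges s.1 s.2.2.2}
      {z | z ∈ {z : ℕ × ℕ × ℕ | (z.1, z.2.1) ∈ s.2.2.1 ∧ z.2.2 = t} ∨
        ∃ e ∈ newEdges s.1 s.2.2.2, z = (e.1, e.2, c)} := by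
    constructor
    · rintro ⟨T, h1, h2, h3, h4⟩
      refine ⟨T, h1, fun x y hxy => ?_, fun x y d hd => ?_⟩
      · rcases h2 x y hxy with h | h
        · exact Or.inl (List.mem_append.1 h)
        · exact Or.inr (List.mem_append.1 h)
      · rcases hd with ⟨hd, hd'⟩ | ⟨e, he, hd⟩
        · simp only at hd hd'
          rw [hd']
          exact h3 x y (List.mem_append_left _ hd)
        · rw [Prod.mk.injEq, Prod.mk.injEq] at hd
          obtain ⟨hd1, hd2, hd3⟩ := hd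
          rw [hd3]
          obtain ⟨p, hp, h | h⟩ := (mem_newEdges_iff _ _ _).1 he
          · rw [h] at hd1 hd2
            exact h4 _ ((mem_newSlots_iff s.1 s.2.1 s.2.2.2 _).2 ⟨p, hp, Or.inl rfl⟩) x y hd1 hd2
          · rw [h] at hd1 hd2
            refine le_of_eq_of_le (SimpleGraph.dist_comm (G := T) (u := x) (v := y)) ?_
            exact h4 _ ((mem_newSlots_iff s.1 s.2.1 s.2.2.2 _).2 ⟨p, hp, Or.inr rfl⟩) y x hd2 hd1
    · rintro ⟨T, h1, h2, h3⟩
      refine ⟨T, h1, fun x y hxy => ?_, fun x y hd => ?_, fun q hq x y hx hy => ?_⟩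
      · rcases h2 x y hxy with h | h
        · exact Or.inl (List.mem_append.2 h)
        · exact Or.inr (List.mem_append.2 h)
      · rcases List.mem_append.1 hd with hd | hd
        · exact h3 x y t (Or.inl ⟨hd, rfl⟩)
        · exact (h3 x y c (Or.inr ⟨_, hd, rfl⟩)).trans hct
      · obtain ⟨p, hp, h | h⟩ := (mem_newSlots_iff s.1 s.2.1 s.2.2.2 _).1 hq
        · rw [h] at hx hy
          refine h3 x y c (Or.inr ⟨(p.1.2.1.1, s.1 + p.2), ?_, ?_⟩)
          · exact (mem_newEdges_iff _ _ _).2 ⟨p, hp, Or.inl rfl⟩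
          · rw [hx, hy]
        · rw [h] at hx hy
          refine le_of_eq_of_le (SimpleGraph.dist_comm (G := T) (u := x) (v := y)) ?_
          refine h3 y x c (Or.inr ⟨(p.1.2.2.1, s.1 + p.2), ?_, ?_⟩)
          · exact (mem_newEdges_iff _ _ _).2 ⟨p, hp, Or.inr rfl⟩
          · rw [hx, hy]
  have k2 : WSp t s (c - 1) ↔ WS s.1 {z | z ∈ s.2.2.1}
      {z | z ∈ {z : ℕ × ℕ × ℕ | (z.1, z.2.1) ∈ s.2.2.1 ∧ z.2.2 = t} ∨
        ∃ q ∈ s.2.2.2, z = (q.2.1.1, q.2.2.1, c - 1)} := by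
    constructor
    · rintro ⟨T, h1, h2, h3, h4⟩
      refine ⟨T, h1, h2, fun x y d hd => ?_⟩
      rcases hd with ⟨hd, hd'⟩ | ⟨q, hq, hd⟩
      · simp only at hd hd'
        rw [hd']
        exact h3 x y hd
      · rw [Prod.mk.injEq, Prod.mk.injEq] at hd
        obtain ⟨hd1, hd2, hd3⟩ := hd
        rw [hd3]
        exact h4 q hq x y hd1 hd2
    · rintro ⟨T, h1, h2, h3⟩
      refine ⟨T, h1, h2, fun x y hd => h3 x y t (Or.inl ⟨hd, rfl⟩), fun q hq x y hx hy => ?_⟩
      refine h3 x y (c - 1) (Or.inr ⟨q, hq, ?_⟩)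
      rw [hx, hy]
  rw [k1, hm, k2]

end Pool.Agent.W392.TP
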