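import Pool.Agent.W312.TP.Stm2
import Pool.Agent.H673R2.TsTree

/-!
# A graph with a certificate is a path graph
-/

set_option autoImplicit false

namespace Pool.Agent.W392.TP

open Pool.Agent.W312.TP Pool.Agent.H673R2 Pool.Agent.H673R2.Ts

theorem walk_of_chain {N : ℕ} (H : SimpleGraph (Fin N)) (R : ℕ → ℕ → Prop)
    (hR : ∀ x y : Fin N, R x y → H.Adj x y) : ∀ (q : List ℕ) (x : ℕ) (hx : x < N),
    (∀ y ∈ q, y < N) → (x :: q).IsChain R →
    ∃ (b : Fin N) (W : H.Walk ⟨x, hx⟩ b), W.support.map Fin.val = x :: q := by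
  intro q
  induction q with
  | nil =>
    intro x hx _ _
    exact ⟨⟨x, hx⟩, SimpleGraph.Walk.nil, by simp⟩
  | cons y q ih =>
    intro x hx hq hc
    rw [List.isChain_cons_cons] at hc
    have hy : y < N := hq y (List.mem_cons_self)
    obtain ⟨b, W, hW⟩ := ih y hy (fun z hz => hq z (List.mem_cons_of_mem _ hz)) hc.2
    refine ⟨b, SimpleGraph.Walk.cons (hR ⟨x, hx⟩ ⟨y, hy⟩ hc.1) W, ?_⟩
    rw [SimpleGraph.Walk.support_cons, List.map_cons, hW]

theorem path_of_list {N : ℕ} (H : SimpleGraph (Fin N)) (R : ℕ → ℕ → Prop)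
    (hR : ∀ x y : Fin N, R x y → H.Adj x y) (q : List ℕ) (hq : q ≠ []) (hn : q.Nodup)
    (hl : ∀ x ∈ q, x < N) (hc : q.IsChain R) :
    ∃ (a b : Fin N) (P : H.Path a b), ∀ x : Fin N, x ∈ P.1.support ↔ (x : ℕ) ∈ q := by
  cases q with
  | nil => exact absurd rfl hq
  | cons x q =>
    obtain ⟨b, W, hW⟩ := walk_of_chain H R hR q x (hl x List.mem_cons_self)
      (fun y hy => hl y (List.mem_cons_of_mem _ hy)) hc
    have hnd : W.support.Nodup := by
      rw [← hW] at hn
      exact hn.of_map _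
    refine ⟨_, b, ⟨W, SimpleGraph.Walk.IsPath.mk' hnd⟩, fun z => ?_⟩
    rw [← hW, List.mem_map]
    constructor
    · intro h
      exact ⟨z, h, rfl⟩
    · rintro ⟨z', h, h'⟩
      rwa [← Fin.ext h']

theorem proof_PGCB : PGCB := by
  rintro ⟨n, E⟩ ⟨hnd, hlt, hconn⟩ ⟨par, lev, Q, h0, h1, h2, h3, h4, h5, h6, h7, h8⟩
  simp only at h1 h3 h4 h8 hlt hnd
  have hpar : ∀ x : Fin par.length, par.getD x 0 < par.length := by
    intro x
    apply h5
    rw [List.getD_eq_getElem _ _ x.2]
    exact List.getElem_mem _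
  let r : Fin par.length := ⟨0, h0⟩
  let pf : Fin par.length → Fin par.length := fun x => ⟨par.getD x 0, hpar x⟩
  have hne : ∀ x : Fin par.length, x ≠ r ↔ (x : ℕ) ≠ 0 := by
    intro x
    constructor
    · intro h h'
      exact h (Fin.ext h')
    · rintro h rfl
      exact h rfl
  have hlev : ∀ x : Fin par.length, x ≠ r → lev.getD (pf x : ℕ) 0 < lev.getD (x : ℕ) 0 := by
    intro x hx
    exact h6 x x.2 (Nat.pos_of_ne_zero ((hne x).1 hx))
  have htree := isTree_of_parent r pf (fun x => lev.getD (x : ℕ) 0) hlev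
  set H := SimpleGraph.fromRel fun x y : Fin par.length => x ≠ r ∧ y = pf x with hH
  have hadj : ∀ x y : Fin par.length, ((x : ℕ) ≠ 0 ∧ (y : ℕ) = par.getD x 0) ∨
      ((y : ℕ) ≠ 0 ∧ (x : ℕ) = par.getD y 0) → H.Adj x y := by
    intro x y h
    rw [hH, SimpleGraph.fromRel_adj]
    rcases h with ⟨ha, hb⟩ | ⟨ha, hb⟩
    · have hy : y = pf x := Fin.ext hb
      refine ⟨fun he => ?_, Or.inl ⟨(hne x).2 ha, hy⟩⟩
      have := hlev x ((hne x).2 ha)
      rw [← hy, ← he] at this
      exact lt_irrefl _ this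
    · have hx : x = pf y := Fin.ext hb
      refine ⟨fun he => ?_, Or.inr ⟨(hne y).2 ha, hx⟩⟩
      have := hlev y ((hne y).2 ha)
      rw [← hx, he] at this
      exact lt_irrefl _ this
  have hpath : ∀ v : Fin n, ∃ (a b : Fin par.length) (P : H.Path a b),
      ∀ x : Fin par.length, x ∈ P.1.support ↔ (x : ℕ) ∈ Q.getD v [] := by
    intro v
    have hv : (v : ℕ) < Q.length := by rw [h3]; exact v.2
    have hmem : Q.getD v [] ∈ Q := by
      rw [List.getD_eq_getElem _ _ hv]
      exact List.getElem_mem _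
    obtain ⟨k1, k2, k3, k4⟩ := h7 _ hmem
    exact path_of_list H _ hadj _ k1 k2 k3 k4
  choose a b P hP using hpath
  refine ⟨par.length, H, htree, a, b, P, ?_⟩
  have key : ∀ u v : Fin n, u < v → ((graphOf (n, E)).Adj u v ↔
      ∃ x, x ∈ (P u).1.support ∧ x ∈ (P v).1.support) := by
    intro u v huv
    have e1 : (graphOf (n, E)).Adj u v ↔ ((u : ℕ), (v : ℕ)) ∈ E := by
      unfold graphOf
      rw [SimpleGraph.fromRel_adj]
      constructor
      · rintro ⟨-, h | h⟩
        · exact h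
        · have := (hlt _ h).1
          have huv' : (u : ℕ) < v := huv
          simp only at this
          omega
      · intro h
        exact ⟨huv.ne, Or.inl h⟩
    rw [e1, h8 v v.2 u huv]
    constructor
    · rintro ⟨x, hx1, hx2⟩
      have hu : (u : ℕ) < Q.length := by rw [h3]; exact u.2
      have hmem : Q.getD u [] ∈ Q := by
        rw [List.getD_eq_getElem _ _ hu]
        exact List.getElem_mem _
      have hxl : x < par.length := (h7 _ hmem).2.2.1 x hx1
      exact ⟨⟨x, hxl⟩, (hP u _).2 hx1, (hP v _).2 hx2⟩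
    · rintro ⟨x, hx1, hx2⟩
      exact ⟨x, (hP u _).1 hx1, (hP v _).1 hx2⟩
  intro u v huv
  rcases lt_or_gt_of_ne huv with h | h
  · exact key u v h
  · rw [SimpleGraph.adj_comm, key v u h]
    exact exists_congr fun x => and_comm

end Pool.Agent.W392.TP
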